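import Pool.Agent.W322.HB.Tools

/-!
Project HB, part V: single vertices.
-/

set_option autoImplicit false

namespace Pool.Agent.W605.HB

open Finset Pool.Agent.H115R3.DT
open Pool.Agent.W322.HB

theorem taskAdd : TaskAdd := by
  intro V _ R m W f a y h ha hpa hy1 hym hyL hyD
  have hne : R.par a ≠ a := fun h' => ha (h' ▸ hpa)
  have hWne : ∀ x ∈ W, x ≠ a := fun x hx h' => ha (h' ▸ hx)
  have hW : ∀ x ∈ W, Function.update f a y x = f x := fun x hx =>
    Function.update_of_ne (hWne x hx) _ _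
  have hfa : Function.update f a y a = y := Function.update_self _ _ _
  have hda : R.dif (Function.update f a y) a = Int.natAbs ((y : ℤ) - (f (R.par a) : ℤ)) := by
    unfold RT.dif
    rw [hfa, hW _ hpa]
  have hmain := taskExt V R m W f {a} (Function.update f a y) h
    (Finset.disjoint_singleton_left.2 ha) hW
    (by
      intro x hx
      rw [Finset.mem_singleton] at hx
      rw [hx]
      exact Finset.mem_union_left _ hpa)
    (by
      intro x hx z hz _
      rw [Finset.mem_singleton] at hx hz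
      rw [hx, hz])
    (by
      intro x hx z hz _
      rw [Finset.mem_singleton] at hx hz
      rw [hx, hz])
    (by
      intro x hx
      rw [Finset.mem_singleton] at hx
      rw [hx, hfa]
      exact ⟨hym, hy1, hyL⟩)
    (by
      intro x hx
      rw [Finset.mem_singleton] at hx
      rw [hx, hda]
      exact hyD)
  have hins : insert a W = W ∪ {a} := by
    rw [Finset.insert_eq, Finset.union_comm]
  rw [hins]
  obtain ⟨h1, h2, h3⟩ := hmain
  refine ⟨h1, ?_, ?_⟩
  · rw [h2, Finset.image_singleton, hfa, Finset.insert_eq, Finset.union_comm]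
  · rw [h3, Finset.image_singleton, hda, Finset.insert_eq, Finset.union_comm]

section
variable {C κ Q u T S g₁ g₂ g₃ G : ℕ}

lemma core (h : Num C κ Q u T S g₁ g₂ g₃ G) (lo r : ℕ) (c : ZMod Q) :
    ∃ y0 M : ℕ, 0 < M ∧ lo ≤ y0 ∧ y0 < lo + M ∧ g₁ ∣ y0 ∧ g₁ ∣ M ∧ y0 ≡ r [MOD g₂] ∧ g₂ ∣ M ∧
      (y0 : ZMod Q) = c ∧ (M : ZMod Q) = 0 ∧ M * (2 * u + 2) ≤ T := by
  haveI : NeZero Q := ⟨by have := h.hQ; omega⟩
  obtain ⟨hc1, hc2, _⟩ := h.cop h.hQ h.hQκ
  have p1 := h.p1.pos
  have p2 := h.p2.pos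
  have p3 := h.p3.pos
  have hQ := h.hQ
  obtain ⟨t, ht1, ht2, ht3, ht4, ht5⟩ := crt3 g₁ g₂ Q 0 r c.val lo h.c12 hc1 hc2 p1 p2 (by omega)
  refine ⟨t, g₁ * g₂ * Q, ?_, ht1, ht2, ?_, ?_, ht4, ?_, ?_, ?_, ?_⟩
  · exact Nat.mul_pos (Nat.mul_pos p1 p2) (by omega)
  · exact (Nat.modEq_zero_iff_dvd).1 ht3
  · exact (dvd_mul_right _ _).trans (dvd_mul_right _ _)
  · exact (dvd_mul_left _ _).trans (dvd_mul_right _ _)
  · have := (ZMod.natCast_eq_natCast_iff t c.val Q).2 ht5
    rw [this, ZMod.natCast_zmod_val]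
  · push_cast
    rw [ZMod.natCast_self, mul_zero]
  · refine le_trans ?_ h.hT
    have e1 : g₁ * g₂ * Q ≤ G * κ := by
      rw [h.hG]
      calc g₁ * g₂ * Q ≤ g₁ * g₂ * g₃ * Q := by
            apply Nat.mul_le_mul_right
            exact Nat.le_mul_of_pos_right _ p3
        _ ≤ _ := Nat.mul_le_mul_left _ h.hQκ
    have hC := h.hC
    have e2 : 2 * u + 2 ≤ 2 * C * u + (C + 2) ^ 2 := by
      have e3 : 2 * u ≤ 2 * C * u := by
        apply Nat.mul_le_mul_right
        omega
      have e4 : 2 ≤ (C + 2) ^ 2 := by nlinarith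
      omega
    exact Nat.mul_le_mul e1 e2

end

theorem taskV : TaskV := by
  classical
  intro C κ Q u T S g₁ g₂ g₃ G lo φ c A h hA hlo hφ
  obtain ⟨y0, M, hM, h1, h2, h3, h4, h5, h6, h7, h8, h9⟩ := core h lo φ c
  have hlt : ∀ j ≤ 2 * u + 1, y0 + M * j < lo + T := by
    intro j hj
    have e1 : M * j ≤ M * (2 * u + 1) := Nat.mul_le_mul_left _ hj
    have e2 : M * (2 * u + 2) = M * (2 * u + 1) + M := by ring
    omega
  have hinj : ∀ i j, y0 + M * i = y0 + M * j → i = j := by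
    intro i j hij
    exact Nat.eq_of_mul_eq_mul_left hM (by omega)
  have hinj2 : ∀ i ≤ 2 * u + 1, ∀ j ≤ 2 * u + 1, φ - (y0 + M * i) = φ - (y0 + M * j) → i = j := by
    intro i hi j hj hij
    have e1 := hlt i hi
    have e2 := hlt j hj
    exact hinj i j (by omega)
  have hnc1 : ∀ j ≤ 2 * u + 1, ¬ Nat.Coprime (y0 + M * j) G := by
    intro j _
    exact h.nc (Or.inl (dvd_add h3 (h4.trans (dvd_mul_right _ _))))
  have hnc2 : ∀ j ≤ 2 * u + 1, ¬ Nat.Coprime (φ - (y0 + M * j)) G := by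
    intro j hj
    apply h.nc
    right; left
    apply (Nat.modEq_iff_dvd' (by have := hlt j hj; omega)).1
    have e1 : M * j ≡ 0 [MOD g₂] := (Nat.modEq_zero_iff_dvd).2 (h6.trans (dvd_mul_right _ _))
    have e2 := Nat.ModEq.add h5 e1
    simpa using e2
  obtain ⟨B, hB⟩ : ∃ B : ℕ → Finset ℕ, B = fun i =>
    if i = 0 then (range (2 * u + 1 + 1)).filter (fun j => y0 + M * j ∈ A)
    else if i = 1 then (range (2 * u + 1 + 1)).filter (fun j => φ - (y0 + M * j) ∈ A)
    else (range (2 * u + 1 + 1)).filter (fun j => y0 + M * j = φ - (y0 + M * j) ∧ j ≤ 2 * u + 1) :=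
    ⟨_, rfl⟩
  have hsum : ∑ i ∈ range 3, (B i).card ≤ 2 * u + 1 := by
    rw [Finset.sum_range_succ, Finset.sum_range_succ, Finset.sum_range_succ, Finset.sum_range_zero]
    have b1 : (B 0).card ≤ u := by
      rw [hB]; simp only [if_true]
      exact bad_card G u (2 * u + 1) A hA (fun j => y0 + M * j) (fun i _ j _ => hinj i j) hnc1
    have b2 : (B 1).card ≤ u := by
      rw [hB]; simp only [one_ne_zero, if_false, if_true]
      exact bad_card G u (2 * u + 1) A hA (fun j => φ - (y0 + M * j)) hinj2 hnc2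
    have b3 : (B 2).card ≤ 1 := by
      rw [hB]; simp only [OfNat.ofNat_ne_zero, OfNat.ofNat_ne_one, if_false]
      apply bad_one
      rintro i j ⟨e1, e1'⟩ ⟨e2, e2'⟩
      have e3 := hlt i e1'
      have e4 := hlt j e2'
      exact hinj i j (by omega)
    omega
  obtain ⟨j, hj, hj2⟩ := pick (2 * u + 1) (range 3) B hsum
  have c1 := hj2 0 (by simp)
  have c2 := hj2 1 (by simp)
  have c3 := hj2 2 (by simp)
  rw [hB] at c1 c2 c3
  simp only [if_true, mem_filter, mem_range, not_and] at c1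
  simp only [one_ne_zero, if_false, if_true, mem_filter, mem_range, not_and] at c2
  simp only [OfNat.ofNat_ne_zero, OfNat.ofNat_ne_one, if_false, mem_filter, mem_range,
    not_and] at c3
  refine ⟨y0 + M * j, by omega, hlt j hj, ?_, c1 (by omega), c2 (by omega), ?_⟩
  · push_cast
    rw [h7, h8, zero_mul, add_zero]
  · intro e
    exact c3 (by omega) e hj

theorem taskV0 : TaskV0 := by
  classical
  intro C κ Q u T S g₁ g₂ g₃ G lo c A h hA hlo
  obtain ⟨y0, M, hM, h1, h2, h3, h4, h5, h6, h7, h8, h9⟩ := core h lo 0 c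
  have hlt : ∀ j ≤ 2 * u + 1, y0 + M * j < lo + T := by
    intro j hj
    have e1 : M * j ≤ M * (2 * u + 1) := Nat.mul_le_mul_left _ hj
    have e2 : M * (2 * u + 2) = M * (2 * u + 1) + M := by ring
    omega
  have hinj : ∀ i j, y0 + M * i = y0 + M * j → i = j := by
    intro i j hij
    exact Nat.eq_of_mul_eq_mul_left hM (by omega)
  have hnc1 : ∀ j ≤ 2 * u + 1, ¬ Nat.Coprime (y0 + M * j) G := by
    intro j _
    exact h.nc (Or.inl (dvd_add h3 (h4.trans (dvd_mul_right _ _))))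
  have b1 : ((range (2 * u + 1 + 1)).filter (fun j => y0 + M * j ∈ A)).card ≤ u :=
    bad_card G u (2 * u + 1) A hA (fun j => y0 + M * j) (fun i _ j _ => hinj i j) hnc1
  obtain ⟨j, hj, hj2⟩ := pick (2 * u + 1) (range 1)
    (fun _ => (range (2 * u + 1 + 1)).filter (fun j => y0 + M * j ∈ A)) (by
      rw [Finset.sum_range_one]; omega)
  have c1 := hj2 0 (by simp)
  simp only [mem_filter, mem_range, not_and] at c1
  refine ⟨y0 + M * j, by omega, hlt j hj, ?_, c1 (by omega)⟩
  push_cast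
  rw [h7, h8, zero_mul, add_zero]

end Pool.Agent.W605.HB
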